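import Pool.Agent.Helper15.KPI.Pad

/-!
The Kneser-Poulsen inequality for unions of at most `d + 4` balls in dimension `d`.
-/

set_option autoImplicit false

namespace Pool.Agent.Results.MP_28f232_co.Unions

open MeasureTheory

/-- If at most `d + 4` balls in `d`-dimensional Euclidean space, `d ≥ 1`, are moved so that no
distance of two centres grows, the radii being fixed, then the volume of their union does
not go up. -/
theorem result : ∀ d : ℕ, 1 ≤ d → ∀ N : ℕ, N ≤ d + 4 →
    ∀ (p q : Fin N → EuclideanSpace ℝ (Fin d)) (r : Fin N → ℝ),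
      (∀ i, 0 < r i) → (∀ i j, dist (q i) (q j) ≤ dist (p i) (p j)) →
      volume (⋃ i, Metric.closedBall (q i) (r i)) ≤
        volume (⋃ i, Metric.closedBall (p i) (r i)) :=
  fun d hd N hN p q r hr h => Pool.Agent.Helper15.KPI.kpUle d hd N hN p q r hr h

end Pool.Agent.Results.MP_28f232_co.Unions
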